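import Pool.Agent.MP_ee8c61_ag.Q3FD.Fd
import Pool.Agent.MP_ee8c61_ag.Q3FT.Spec
import Pool.Agent.MP_ee8c61_ag.Q3G.Gauss

/-! The type of the base of a ruled surface, in terms of the ruling. -/

namespace Pool.Agent.MP_ee8c61_ag.Q3FD

open M3 M3RESID M3BK M3F Q3 Q3P Q3BK
open Q3FT (AllR SRS SGS SEX OfLA)
open scoped IntermediateField

noncomputable section

variable {k L : Type} [Field k] [Algebra ℂ k] [Field L] [Algebra ℂ L] {ι : k →ₐ[ℂ] L} {y : L}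
  {e : Dv k} {D : SD L}

theorem rat_of {d : Dv L} (R : Q3FT.Rl ι y e d) : Q3G.Rat ι.fieldRange y := by
  obtain ⟨Y, h1, h2, -⟩ := R.eul
  refine ⟨fun h => R.y0 (h2 ▸ kill_alg _ Y (by rintro _ ⟨c, rfl⟩; exact h1 c) h), ?_⟩
  refine IntermediateField.restrictScalars_injective ℂ (top_le_iff.1 (R.gen.ge.trans ?_))
  refine IntermediateField.adjoin_le_iff.2 ?_
  rintro _ (⟨c, rfl⟩ | h)
  · exact (ι.fieldRange⟮y⟯).algebraMap_mem ⟨ι c, c, rfl⟩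
  · exact h ▸ IntermediateField.mem_adjoin_simple_self ι.fieldRange y

/-- The section `y = 0`. -/
theorem hor (R : Q3FT.Rl ι y e D.d) (h : Vol0 D) (hc : ∀ l, ∃ c : ℂ, D.x l = algebraMap ℂ L c) :
    ∃ Γ, Cv D.x Γ ∧ (∀ t, Γ.v (ι t) = 0) ∧ D.ex Γ = 0 := by
  obtain ⟨Γ, hΓ⟩ := (rat_of R).exists_dv ⟨fun _ => 0, rfl, by simp, by simp⟩ 1 one_pos
  have v0 : ∀ t, Γ.v (ι t) = 0 := fun t => by
    have := hΓ (algebraMap ι.fieldRange L ⟨ι t, t, rfl⟩)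
    rw [(rat_of R).w_base] at this
    simpa using this
  have v1 : Γ.v y = 1 := by
    have := hΓ y
    rw [(rat_of R).w_y] at this
    simpa using this
  obtain ⟨X, -, -, X0, -⟩ := R.rat
  obtain ⟨t, ht⟩ : ∃ t, X t ≠ 0 := by
    by_contra! x
    exact X0 (Derivation.ext x)
  have nc : NC Γ (ι t) := ⟨Or.inr (v0 t).ge, fun c x => by
    rw [← ι.commutes, ← map_sub] at x
    rcases x with x | x
    · exact ht (by rw [sub_eq_zero.1 ((map_eq_zero ι).1 x), Derivation.map_algebraMap])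
    · rw [v0] at x
      omega⟩
  have cv : Cv D.x Γ := ⟨⟨y, v1⟩, fun l => by
    obtain ⟨c, x⟩ := hc l
    exact x ▸ cst_F Γ c, _, nc⟩
  obtain ⟨C, hz, hA⟩ := cv_at D.C h.srf.fin v1 nc.1 nc.2
  obtain ⟨Y, h1, h2, h3⟩ := R.eul
  have z0 : C.z 0 = y := by rw [hz]; rfl
  have z1 : C.z 1 = ι t := by rw [hz]; rfl
  have hY : C.th 0 = Y := M3J.ext2 C
    (by rw [Co.th, Derivation.smul_apply, C.dual, z0, h2]; simp)
    (by rw [Co.th, Derivation.smul_apply, C.dual, z1, h1]; simp)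
  have h4 := (h.exp Γ cv).of_eul v1 hA.eul
  rw [hY, h3, zero_sub, neg_mem_iff] at h4
  exact ⟨Γ, cv, v0, by exact_mod_cast cst_F1 h4⟩

theorem bridge (rs : SRS) (gs : SGS) (ex : SEX) (R : Q3FT.Rl ι y e D.d) (h : Vol0 D)
    (hc : ∀ l, ∃ c : ℂ, D.x l = algebraMap ℂ L c) :
    ∃ a : DV k → ℚ, (∀ U, Nrm U → Exp e U (a U)) ∧ Rl D ι a := by
  obtain ⟨e1, e2⟩ := ex k L ι y e D.d R
  choose! a ha using e1
  refine ⟨a, ha, hc, fun Γ hΓ => ?_, fun U hU => ?_, hor R h hc⟩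
  · obtain ⟨e3, e4⟩ := e2 Γ _ hΓ.sur hΓ.nc (h.exp Γ hΓ)
    refine (rs k L ι Γ).imp (fun x => ⟨x, e3 x⟩) fun ⟨U, m, x⟩ => ?_
    obtain ⟨n, hn⟩ := (e4 U m _ x (ha U x.1)).1
    exact ⟨U, m, n, x.1, x.2.1, x.2.2, by rw [hn, mul_comm]⟩
  · obtain ⟨Γ, g1, g2⟩ := gs k L ι y e D.d R U hU
    have g3 : ∀ t, Γ.v (ι t) = U.v t := fun t => by simpa using g1.2.2 t
    have cv : Cv D.x Γ := ⟨hU.elim fun π x => ⟨ι π, (g3 π).trans x⟩, fun l => by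
      obtain ⟨c, x⟩ := hc l
      exact x ▸ cst_F Γ c, _, g2⟩
    exact ⟨Γ, cv, g3, ((e2 Γ _ cv.sur cv.nc (h.exp Γ cv)).2 U 1 _ g1 (ha U hU)).2 rfl g2⟩

theorem neg_of {a : DV k → ℚ} (ha : ∀ U, Nrm U → Exp e U (a U))
    (hn : ∃ (U : DV k) (a : ℚ), Nrm U ∧ Exp e U a ∧ a < 0) : ∃ U, Nrm U ∧ a U < 0 := by
  obtain ⟨U, b, h1, h2, h3⟩ := hn
  obtain rfl : b = a U := by exact_mod_cast h2.uniq (ha U h1) h1.choose_spec
  exact ⟨U, h1, h3⟩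

/-- The type of the curve on a wall. -/
def SDW : Prop := AllR fun {k L _ _ _ _} ι => ∀ (y : L) (e : Dv k) (D : SD L),
  Q3FT.Rl ι y e D.d → OK1 D → 0 < D.t0 → D.Small → D.Pen →
  (∀ l, ∃ c : ℂ, D.x l = algebraMap ℂ L c) →
  (∃ (U : DV k) (a : ℚ), Nrm U ∧ Exp e U a ∧ a < 0) → Ty1 e

theorem de (rs : SRS) (gs : SGS) (ex : SEX) : SDW := fun _ _ _ _ _ _ _ _ _ _ R h h0 hs hp hc hn => by
  obtain ⟨a, ha, R'⟩ := bridge rs gs ex R h.vol hc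
  exact R'.death R.ff R.rat ha (neg_of ha hn) h h0 hs hp

theorem la : OfLA := fun rs _ gs ex _ _ _ _ _ _ _ _ _ _ R h h0 hc hS hn hz => by
  obtain ⟨a, ha, R'⟩ := bridge rs gs ex R h.vol hc
  exact R'.last R.ff R.rat ha (neg_of ha hn) h h0 hS hz

end

end Pool.Agent.MP_ee8c61_ag.Q3FD
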