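import Pool.Agent.MP_ee8c61_ag.Q3BK.Ty
import Pool.Agent.MP_ee8c61_ag.Q3P.FK

/-! The type of the base of a ruled surface from its surface datum. -/

namespace Pool.Agent.MP_ee8c61_ag.Q3FD

open M3 M3RESID M3BK M3F Q3 Q3P Q3BK Finset WithZero Pool.Agent.MP_cce4c9_lc
open Pool.Agent.MP_cce4c9_lc.H87

noncomputable section

variable {k L : Type} [Field k] [Algebra ℂ k] [Field L] [Algebra ℂ L]

theorem exists_plc {U : DV k} (hU : Nrm U) : ∃ P : Place ℂ k, M3J.dvP P = U := by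
  obtain ⟨P, rfl⟩ := exists_place (hor_iff.2 hU)
  exact ⟨⟨P.val, P.surj, fun a ha => P.triv (algebraMap ℂ (K0 k) a) (by simpa using ha)⟩, rfl⟩

/-- A function with one pole. -/
theorem one_pole (hk : IsFF ℂ k) {U : DV k} (hU : Nrm U) :
    ∃ h : k, (∀ c : ℂ, h ≠ algebraMap ℂ k c) ∧ ∀ U', Nrm U' → U' ≠ U → h ∈ U'.F 0 := by
  classical
  obtain ⟨P, rfl⟩ := exists_plc hU
  obtain ⟨g, hg⟩ := (H7.gen ℂ k hk).1
  have h1 := hg.ge (Finsupp.single P (g + 1))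
  rw [Finsupp.degree_single] at h1
  by_contra! hn
  have h2 : LL (Finsupp.single P (g + 1 : ℤ)) ≤ Submodule.span ℂ {(1 : k)} := fun h hh => by
    by_contra h3
    obtain ⟨U', n1, n2, n3⟩ := hn h fun c e => h3 (Submodule.mem_span_singleton.2
      ⟨c, by rw [e, Algebra.algebraMap_eq_smul_one]⟩)
    obtain ⟨P', rfl⟩ := exists_plc n1
    have h4 := hh P'
    rw [Finsupp.single_eq_of_ne fun e => n2 (by rw [e])] at h4
    exact n3 (M3J.mem_dvP.2 (by simpa using h4))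
  have h3 := Submodule.finrank_mono h2
  rw [finrank_span_singleton one_ne_zero] at h3
  omega

/-- The surface is ruled over the complete curve with function field `k`, and the volume form is
the product of a form with exponents `a` and a logarithmic form on the fibres. -/
structure Rl (D : SD L) (ι : k →ₐ[ℂ] L) (a : DV k → ℚ) : Prop where
  cst : ∀ l, ∃ c : ℂ, D.x l = algebraMap ℂ L c
  exf : ∀ Γ, Cv D.x Γ → ((∀ t, Γ.v (ι t) = 0) ∧ 0 ≤ D.ex Γ) ∨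
    ∃ (U : DV k) (m A : ℕ), Nrm U ∧ 0 < m ∧ (∀ t, Γ.v (ι t) = m * U.v t) ∧ D.ex Γ = a U * m + A
  gau : ∀ U, Nrm U → ∃ Γ, Cv D.x Γ ∧ (∀ t, Γ.v (ι t) = U.v t) ∧ D.ex Γ = a U
  hor : ∃ Γ, Cv D.x Γ ∧ (∀ t, Γ.v (ι t) = 0) ∧ D.ex Γ = 0

variable {D : SD L} {ι : k →ₐ[ℂ] L} {a : DV k → ℚ} {e : Dv k}

/-- Negative or the inverse of an integer. -/
def Cnt (x : ℚ) : Prop := x < 0 ∨ ∃ r : ℕ, 0 < r ∧ x = 1 / r

theorem hon_cnt {d : M3RESID.Dv L} {v : VF L} {Γ : DV L} {x : ℚ} (h : Hon d v Γ x) :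
    ∃ r : ℕ, 0 < r ∧ x = 1 / r := by
  rcases h with ⟨r, h1, h2⟩ | h
  · exact ⟨r, by omega, h2⟩
  · exact ⟨1, one_pos, by simp [h.1]⟩

theorem arith {x : ℚ} {m A r : ℕ} (hm : 0 < m) (hr : 0 < r) (h : x * m + A = 1 / r) :
    x ≤ 0 ∨ ∃ n : ℕ, 0 < n ∧ x = 1 / n := by
  have m0 : (0 : ℚ) < m := by exact_mod_cast hm
  have r0 : (1 : ℚ) ≤ r := by exact_mod_cast hr
  rcases Nat.eq_zero_or_pos A with rfl | hA
  · refine Or.inr ⟨r * m, Nat.mul_pos hr hm, ?_⟩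
    rw [Nat.cast_zero, add_zero] at h
    rw [Nat.cast_mul, ← div_div, ← h, mul_div_cancel_right₀ _ m0.ne']
  · have h1 : (1 : ℚ) ≤ A := by exact_mod_cast hA
    have h2 : (1 : ℚ) / r ≤ 1 := by simpa using one_div_le_one_div_of_le one_pos r0
    exact Or.inl (nonpos_of_mul_nonpos_left (by linarith) m0)

namespace Rl

variable (R : Rl D ι a)
include R

/-- A pole of a function with one pole lies over that place. -/
theorem abv {U : DV k} {h : k} (hh : ∀ U', Nrm U' → U' ≠ U → h ∈ U'.F 0) {Γ : DV L}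
    (hΓ : Cv D.x Γ) (hp : ι h ∉ Γ.F 0) :
    ∃ m A : ℕ, 0 < m ∧ (∀ t, Γ.v (ι t) = m * U.v t) ∧ D.ex Γ = a U * m + A := by
  rcases R.exf Γ hΓ with h1 | ⟨U', m, A, h1, h2, h3, h4⟩
  · exact absurd (Or.inr (h1.1 h).ge) hp
  by_cases e : U' = U
  · exact ⟨m, A, h2, e ▸ h3, e ▸ h4⟩
  refine absurd ?_ hp
  rcases hh U' h1 e with h5 | h5
  · rw [h5, map_zero]
    exact zero_mem _
  · exact Or.inr (by rw [h3]; positivity)

theorem of_cnt (hk : IsFF ℂ k) (hr : Rat1 e) (ha : ∀ U, Nrm U → Exp e U (a U))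
    (hn : ∃ U, Nrm U ∧ a U < 0)
    (h : ∀ t : k, (∀ c : ℂ, t ≠ algebraMap ℂ k c) → ∃ Γ, Cv D.x Γ ∧ ι t ∉ Γ.F 0 ∧ Cnt (D.ex Γ)) :
    Ty1 e := by
  refine crv hk hr (fun U => min (a U) 0) (n := 1) (φ := 1) one_pos (fun U hU => ⟨_, ha U hU, ?_⟩)
    (fun U _ => by simp [U.one]) (hn.imp fun U x => ⟨x.1, (min_le_left _ _).trans_lt x.2⟩)
  obtain ⟨t, t1, t2⟩ := one_pole hk hU
  obtain ⟨Γ, g1, g2, g3⟩ := h t t1
  obtain ⟨m, A, h1, -, h2⟩ := R.abv t2 g1 g2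
  have m0 : (0 : ℚ) < m := by exact_mod_cast h1
  rcases le_or_gt (a U) 0 with h3 | h3
  · exact Or.inl (min_eq_left h3).symm
  refine Or.inr ⟨min_eq_right h3.le, ?_⟩
  rcases g3 with g3 | ⟨r, r0, g3⟩
  · have := mul_pos h3 m0
    have : (0 : ℚ) ≤ A := Nat.cast_nonneg A
    linarith
  · exact (arith h1 r0 (h2 ▸ g3)).resolve_left (not_le.2 h3)

/-- Death with a pencil. -/
theorem pen (hk : IsFF ℂ k) (h : OK1 D) (h0 : 0 < D.t0) {t : L} (p : Pc D t)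
    (hc : ∀ Γ, Hor (Kz t) Γ → D.ex Γ = D.α Γ ∨ (D.α Γ = 0 ∧ Hon D.d D.v Γ (D.ex Γ)))
    (u : k) (hu : ∀ c : ℂ, u ≠ algebraMap ℂ k c) :
    ∃ Γ, Cv D.x Γ ∧ ι u ∉ Γ.F 0 ∧ Cnt (D.ex Γ) := by
  obtain ⟨φ, n, n0, -, f1, Γ₁, f2, f3⟩ := p.death1 h.ok2 h0
  obtain ⟨Y, g, N, A, S, hD, hN⟩ := num0 h.vol.srf.fin h.vol.srf.rat p.der φ n D.α
  have hC := hN.cls (v := D.v) (fun Γ hΓ => ⟨_, h.vol.exp _ (p.cv hΓ), hc Γ hΓ⟩) n0 f1
  obtain ⟨-, P₀, a0, a1, -, a2⟩ := one_neg hD hC (cls_lt hD hN hC n0 f1 f2 f3)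
  have hA : ∀ P, D.ex (dvOf P) = A P := fun P => hN.uniq P _ (h.vol.exp _ (p.cv (hor_dvOf P)))
  have hu' : ι u ∉ Kz t := fun hm => by
    have c0 := p.cv (hor_dvOf P₀)
    have u1 : ∀ c : ℂ, ι u ≠ algebraMap ℂ L c := fun c e =>
      hu c (ι.injective (e.trans (ι.commutes c).symm))
    rcases R.exf _ c0 with h1 | ⟨U, m, B, h1, h2, h3, -⟩
    · rw [hA, a1] at h1
      exact absurd h1.2 (not_le.2 a0)
    obtain ⟨P, rfl⟩ := exists_plc h1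
    have key : ∀ w : k, (∀ c : ℂ, w ≠ algebraMap ℂ k c) → ι w ∈ Kz t → P.val w ≤ 1 → False :=
      fun w w1 w2 w3 => by
        obtain ⟨c, hc⟩ := H51.res hk P w w3
        have w0 := sub_ne_zero.2 (w1 c)
        have h4 := (P.val_lt_one (P.val_ne w0)).1 hc
        have h5 := (hor_dvOf P₀).unit (sub_mem w2 ((Kz t).algebraMap_mem c))
        have h6 := h3 (w - algebraMap ℂ k c)
        rw [map_sub, ι.commutes] at h6
        have h7 : (0 : ℤ) < m * P.ord (w - algebraMap ℂ k c) := mul_pos (by exact_mod_cast h2) h4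
        exact absurd (h5.symm.trans h6) h7.ne
    rcases le_total (P.val u) 1 with h4 | h4
    · exact key u hu hm h4
    · refine key u⁻¹ (fun c e => hu c⁻¹ (by rw [map_inv₀, ← e, inv_inv])) (by
        rw [map_inv₀]; exact inv_mem hm) ?_
      rw [map_inv₀]
      exact inv_le_one_of_one_le₀ h4
  obtain ⟨Γ, g1, g2⟩ := exists_pole D.C h.vol.srf.fin p.der hu'
  refine ⟨Γ, p.cv g1, fun x => ?_, ?_⟩
  · rcases x with x | x
    · rw [x, Γ.zero] at g2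
      omega
    · omega
  obtain ⟨P, rfl⟩ := exists_place g1
  by_cases e : P = P₀
  · exact Or.inl (by rw [hA, e, a1]; exact a0)
  rcases a2 P e with x | x
  · exact Or.inr ⟨1, one_pos, by simp [hA, x.1]⟩
  · refine Or.inr (hon_cnt ((hc _ g1).resolve_left fun y => ?_).2)
    rw [hA, x.2.1] at y
    exact x.2.2.1.ne' y

/-- Death with one neighbour. -/
theorem one (h : OK1 D) (h0 : 0 < D.t0) (hp : D.Pt) (h1 : D.One) {Γ : DV L} (hΓ : Cv D.x Γ)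
    (hn : ¬Null D.x D.S1 Γ) : Cnt (D.ex Γ) := by
  rcases h.kvl Γ hΓ hn with ⟨j, hj⟩ | x
  swap
  · exact Or.inr (hon_cnt x.2)
  have hm : (0 : ℚ) < D.m := by exact_mod_cast h.sem.m
  have th : ∀ s Γ', Cv D.x Γ' → ¬Null D.x D.S1 Γ' →
      D.th s Γ' = D.al j + s * D.h j ∨ D.th s Γ' = 0 := fun s Γ' c n => by
    rcases h.kvl Γ' c n with ⟨j', hj'⟩ | x
    · obtain rfl : j = j' := h1 j j' Γ Γ' hΓ hn (by simp [hj.2.1]) c n (by simp [hj'.2.1])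
      exact Or.inl (core_sum hj' _)
    · exact Or.inr (by simp [SD.th, x.1])
  obtain ⟨s, ⟨s1, s0, -⟩, s2⟩ := h.sem.dg0 Γ hΓ
  have vs : ∀ Γ', Cv D.x Γ' → (Γ'.v s : ℚ) = -(D.m * D.th D.t0 Γ') := fun Γ' c => by
    obtain ⟨r, ⟨r1, r0, -⟩, r2⟩ := h.sem.dg0 Γ' c
    have h2 : ¬Transcendental ℂ (s / r) := fun x => by
      obtain ⟨X, hX⟩ := exists_der D.C h.vol.srf.fin x
      exact hX (hp _ (rat_mem _ r1 s1) X)
    obtain ⟨c', hc'⟩ : ∃ c' : ℂ, s / r = algebraMap ℂ L c' := by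
      by_contra! x
      exact h2 (tr_of_nc x)
    have h3 := Γ'.cst c'
    rw [← hc', div_eq_mul_inv, Γ'.mul _ _ s0 (inv_ne_zero r0), Γ'.inv] at h3
    rw [← r2]
    exact_mod_cast (by omega : Γ'.v s = Γ'.v r)
  have t0 : D.th D.t0 Γ = D.al j + D.t0 * D.h j := core_sum hj _
  have c0 : D.al j + D.t0 * D.h j = 0 := by
    have key : ∀ w : L, (∀ Γ', Cv D.x Γ' → ¬Null D.x D.S1 Γ' → 0 ≤ Γ'.v w) → Γ.v w = 0 :=
      fun w hw => by
        obtain ⟨c, rfl⟩ := h.ok2.fix R.cst fun Γ' c n => Or.inr (hw Γ' c n)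
        exact Γ.cst c
    have h2 : Γ.v s = 0 := by
      rcases le_total (D.al j + D.t0 * D.h j) 0 with x | x
      · refine key s fun Γ' c n => ?_
        have := vs Γ' c
        rcases th D.t0 Γ' c n with y | y <;> rw [y] at this
        · exact_mod_cast (by nlinarith : (0 : ℚ) ≤ Γ'.v s)
        · exact_mod_cast (by linarith : (0 : ℚ) ≤ Γ'.v s)
      · have h3 := key s⁻¹ fun Γ' c n => by
          have := vs Γ' c
          rw [Γ'.inv, neg_nonneg]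
          rcases th D.t0 Γ' c n with y | y <;> rw [y] at this
          · exact_mod_cast (by nlinarith : (Γ'.v s : ℚ) ≤ 0)
          · exact_mod_cast (by linarith : (Γ'.v s : ℚ) ≤ 0)
        rw [Γ.inv] at h3
        omega
    rw [h2, t0, Int.cast_zero, eq_comm, neg_eq_zero] at s2
    exact (mul_eq_zero.1 s2).resolve_left hm.ne'
  have hh : 0 < D.h j := by
    by_contra! x
    have key : ∀ r ∈ D.S1, ∃ c : ℂ, r = algebraMap ℂ L c := fun r hr =>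
      h.ok2.fix R.cst fun Γ' c n => by
        by_cases r0 : r = 0
        · exact Or.inl r0
        have h2 := dg_le (h.sem.dg1 Γ' c) hr r0
        have h3 : D.th D.t1 Γ' ≤ 0 := by
          rcases th D.t1 Γ' c n with y | y <;> rw [y]
          nlinarith [h.sem.t1]
        exact Or.inr (by exact_mod_cast (by nlinarith : (0 : ℚ) ≤ Γ'.v r))
    have h2 := h.big (D.C.D 0) fun g hg => by
      have : RF D.x D.S1 ≤ M3F.cst {D.C.D 0} := IntermediateField.adjoin_le_iff.2 (by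
        rintro _ (⟨l, rfl⟩ | ⟨r, hr, r', hr', rfl⟩) _ -
        · obtain ⟨c, e⟩ := R.cst l
          rw [e, Derivation.map_algebraMap]
        · obtain ⟨c, rfl⟩ := key r hr
          obtain ⟨c', rfl⟩ := key r' hr'
          rw [← map_div₀, Derivation.map_algebraMap])
      exact this hg _ rfl
    simpa [h2] using D.C.dual 0 0
  refine Or.inl ?_
  rw [hj.1, show D.α Γ = D.al j from core_sum hj _]
  nlinarith

/-- The divisor dies on a wall. -/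
theorem death (hk : IsFF ℂ k) (hr : Rat1 e) (ha : ∀ U, Nrm U → Exp e U (a U))
    (hn : ∃ U, Nrm U ∧ a U < 0) (h : OK1 D) (h0 : 0 < D.t0) (hs : D.Small) (hp : D.Pen) :
    Ty1 e := by
  refine R.of_cnt hk hr ha hn fun u hu => ?_
  by_cases pt : D.Pt
  swap
  · obtain ⟨t, hm, p⟩ := exists_pc1 hs pt
    exact R.pen hk h h0 p (fun Γ hΓ => cls_of1 h.kvl (p.cv hΓ) fun e =>
      p.nn1 h.ok2 hm hΓ (h.nul Γ (p.cv hΓ) e).1) u hu
  rcases hp pt with ⟨t, ht, hc⟩ | h1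
  · have p : Pc D t := ⟨ht, fun g hg X _ => pt g hg X⟩
    refine R.pen hk h h0 p (fun Γ hΓ => ?_) u hu
    by_cases e : Null D.x D.S1 Γ
    · exact Or.inl (hc Γ (p.cv hΓ) e (hΓ.nc (self_mem_Kz t) (ne_of_der ht)))
    · exact cls_of1 h.kvl (p.cv hΓ) e
  · by_contra! x
    obtain ⟨c, hc⟩ := h.ok2.fix R.cst (g := ι u) fun Γ c n =>
      by_contra fun y => x Γ c y (R.one h h0 pt h1 c n)
    exact hu c (ι.injective (hc.trans (ι.commutes c).symm))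

/-- The divisor survives. -/
theorem last (hk : IsFF ℂ k) (hr : Rat1 e) (ha : ∀ U, Nrm U → Exp e U (a U))
    (hn : ∃ U, Nrm U ∧ a U < 0) (h : OK1 D) (h0 : D.t0 = 0) (hS : ∀ s ∈ D.S0, ∃ t, ι t = s)
    (hz : ∀ Γ j, Cv D.x Γ → D.Core j Γ → D.al j = 0 → (∀ l, ¬NC Γ (D.x l)) →
      Null D.x D.S0 Γ) : Ty1 e := by
  have hm : (0 : ℚ) < D.m := by exact_mod_cast h.sem.m
  have nx : ∀ Γ : DV L, ∀ l, ¬NC Γ (D.x l) := fun Γ l x => by
    obtain ⟨c, e⟩ := R.cst l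
    exact nc_ne x c e
  obtain ⟨Γ₀, c₀, v₀, e₀⟩ := R.hor
  have n₀ : Null D.x D.S0 Γ₀ := by
    by_contra x
    rcases h.kvl Γ₀ c₀ fun y => x (h.nul Γ₀ c₀ y).1 with ⟨j, hj⟩ | y
    · exact x (hz Γ₀ j c₀ hj ((core_sum hj D.al).symm.trans (hj.1.symm.trans e₀)) (nx Γ₀))
    · obtain ⟨r, r0, y⟩ := hon_cnt y.2
      rw [e₀] at y
      exact absurd y (by positivity : (0 : ℚ) < 1 / r).ne
  obtain ⟨s, hs, -⟩ := h.sem.dg0 Γ₀ c₀
  obtain ⟨u, rfl⟩ := hS s hs.1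
  have al : ∀ Γ, Cv D.x Γ → D.m * D.α Γ = -Γ.v (ι u) := fun Γ c => by
    obtain ⟨r, ⟨r1, r0, -⟩, r2⟩ := h.sem.dg0 Γ c
    obtain ⟨w, rfl⟩ := hS r r1
    have h1 := n₀.2 _ hs _ r1
    rw [NC, not_and, not_forall] at h1
    obtain ⟨c', h2⟩ := h1 (hs.2.2 _ r1)
    rw [not_not, ← map_div₀, ← ι.commutes, ← map_sub] at h2
    have h3 := h2.resolve_right (by rw [v₀]; omega)
    rw [map_sub, ι.commutes, sub_eq_zero, map_div₀] at h3
    have h4 := Γ.cst c'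
    rw [← h3, div_eq_mul_inv, Γ.mul _ _ r0 (inv_ne_zero hs.2.1), Γ.inv] at h4
    rw [th_eq, h0, zero_mul, add_zero] at r2
    rw [← neg_eq_iff_eq_neg, ← r2]
    exact_mod_cast (by omega : Γ.v (ι w) = Γ.v (ι u))
  have le : ∀ U, Nrm U → -(U.v u : ℚ) / D.m ≤ a U := fun U hU => by
    obtain ⟨Γ, g1, g2, g3⟩ := R.gau U hU
    rw [← g2, ← al Γ g1, mul_div_cancel_left₀ _ hm.ne', ← g3]
    exact (h.sgn Γ g1).2.1
  refine crv hk hr (fun U => -(U.v u : ℚ) / D.m) (n := D.m) (φ := u⁻¹) h.sem.m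
    (fun U hU => ⟨_, ha U hU, ?_⟩) (fun U _ => ?_)
    (hn.imp fun U x => ⟨x.1, (le U x.1).trans_lt x.2⟩)
  swap
  · rw [U.inv, mul_div_cancel₀ _ hm.ne', Int.cast_neg]
  obtain ⟨t, t1, t2⟩ := one_pole hk hU
  obtain ⟨Γ, g1, g2, g3⟩ : ∃ Γ, Cv D.x Γ ∧ ¬Null D.x D.S1 Γ ∧ ι t ∉ Γ.F 0 := by
    by_contra! x
    obtain ⟨c, hc⟩ := h.ok2.fix R.cst x
    exact t1 c (ι.injective (hc.trans (ι.commutes c).symm))
  obtain ⟨m, A, h1, h2, h3⟩ := R.abv t2 g1 g3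
  have m0 : (0 : ℚ) < m := by exact_mod_cast h1
  have A0 : (0 : ℚ) ≤ A := Nat.cast_nonneg A
  have h4 : D.α Γ = -(U.v u : ℚ) / D.m * m := by
    rw [div_mul_eq_mul_div, eq_div_iff hm.ne', mul_comm, al Γ g1, h2]
    push_cast
    ring
  have h5 := le U hU
  rcases cls_of1 h.kvl g1 g2 with x | x
  · exact Or.inl (le_antisymm (le_of_mul_le_mul_right (by linarith) m0) h5)
  · have h6 : -(U.v u : ℚ) / D.m = 0 := (mul_eq_zero.1 (h4 ▸ x.1)).resolve_right m0.ne'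
    obtain ⟨r, r0, y⟩ := hon_cnt x.2
    exact (arith h1 r0 (h3 ▸ y)).imp (fun z => le_antisymm (h6 ▸ z) h5) fun z => ⟨h6, z⟩

end Rl

end

end Pool.Agent.MP_ee8c61_ag.Q3FD
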